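import Mathlib
import Pool.Agent.V1148.Tame2

set_option autoImplicit false

/-!
# Every reduced hypersurface is tame with respect to some minimal syzygies
-/

namespace Pool.Agent.Results.MP_0a8f3f_ag.AlwaysTame

open MvPolynomial Pool.Agent.V1148 Pool.Agent.V1148.Prim Pool.Agent.V1148.Tame

variable {k : ℕ}

/-- `ρ_1, …, ρ_m` are homogeneous syzygies of degrees `e_1, …, e_m` that generate `D_0(f)`, and no
family of fewer than `m` homogeneous syzygies generates `D_0(f)`. -/
def IsMinimalGenerators (f : MvPolynomial (Fin (k + 2)) ℂ) {m : ℕ}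
    (ρ : Fin m → Fin (k + 2) → MvPolynomial (Fin (k + 2)) ℂ) (e : Fin m → ℕ) : Prop :=
  (∀ i j, (ρ i j).IsHomogeneous (e i)) ∧
  Submodule.span (MvPolynomial (Fin (k + 2)) ℂ) (Set.range ρ) = jacSyz f ∧
  ∀ m' < m, ∀ (ρ' : Fin m' → Fin (k + 2) → MvPolynomial (Fin (k + 2)) ℂ) (e' : Fin m' → ℕ),
    (∀ i j, (ρ' i j).IsHomogeneous (e' i)) →
      Submodule.span (MvPolynomial (Fin (k + 2)) ℂ) (Set.range ρ') ≠ jacSyz f

/-- The matrix with rows `(x_0, …, x_n)`, `ρ_1, …, ρ_{n-1}`, `ρ`, where `n = k + 1`. -/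
noncomputable def syzMatrix (v : Fin k → Fin (k + 2) → MvPolynomial (Fin (k + 2)) ℂ)
    (ρ : Fin (k + 2) → MvPolynomial (Fin (k + 2)) ℂ) :
    Matrix (Fin (k + 2)) (Fin (k + 2)) (MvPolynomial (Fin (k + 2)) ℂ) :=
  Matrix.of (Fin.cons (fun j => X j) (Fin.snoc v ρ : Fin (k + 1) → _) : Fin (k + 1 + 1) → _)

/-- Tameness with respect to `v = (ρ_1, …, ρ_{n-1})`: the map `u` is injective, `f` divides
`det M(v, ρ)` for all `ρ` in `D_0(f)`, and the quotient `det M(v, ρ) / f` vanishes exactly for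
`ρ` in the image of `u`. -/
def IsTame (f : MvPolynomial (Fin (k + 2)) ℂ)
    (v : Fin k → Fin (k + 2) → MvPolynomial (Fin (k + 2)) ℂ) : Prop :=
  LinearIndependent (MvPolynomial (Fin (k + 2)) ℂ) v ∧
  ∀ ρ ∈ jacSyz f, ∃ w, (syzMatrix v ρ).det = w * f ∧
    (w = 0 ↔ ρ ∈ Submodule.span (MvPolynomial (Fin (k + 2)) ℂ) (Set.range v))

/-- The homogeneous component of a vector. -/
noncomputable def hc (q : ℕ) (a : Fin (k + 2) → MvPolynomial (Fin (k + 2)) ℂ) :
    Fin (k + 2) → MvPolynomial (Fin (k + 2)) ℂ := fun j => homogeneousComponent q (a j)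

theorem hc_mem {f : MvPolynomial (Fin (k + 2)) ℂ} {d : ℕ} (hf : f.IsHomogeneous d) (q : ℕ)
    {a : Fin (k + 2) → MvPolynomial (Fin (k + 2)) ℂ} (ha : a ∈ jacSyz f) : hc q a ∈ jacSyz f := by
  rw [mem_jacSyz] at *
  have h1 := congrArg (homogeneousComponent (q + (d - 1))) ha
  rw [map_sum, map_zero] at h1
  rw [← h1]
  apply Finset.sum_congr rfl
  intro j _
  rw [homogeneousComponent_mul_right (hf.pderiv)]
  rw [if_pos (by omega), Nat.add_sub_cancel]
  rfl

theorem exists_gens {f : MvPolynomial (Fin (k + 2)) ℂ} {d : ℕ} (hf : f.IsHomogeneous d) :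
    ∃ (m : ℕ) (ρ : Fin m → Fin (k + 2) → MvPolynomial (Fin (k + 2)) ℂ) (e : Fin m → ℕ),
      (∀ i j, (ρ i j).IsHomogeneous (e i)) ∧
      Submodule.span (MvPolynomial (Fin (k + 2)) ℂ) (Set.range ρ) = jacSyz f := by
  classical
  obtain ⟨G, hG⟩ : (jacSyz f).FG := IsNoetherian.noetherian _
  let M : ℕ := G.sup fun a => Finset.univ.sup fun j => (a j).totalDegree
  have hM : ∀ a ∈ G, ∀ j, (a j).totalDegree ≤ M := by
    intro a ha j
    exact (Finset.le_sup (f := fun j => (a j).totalDegree) (Finset.mem_univ j)).trans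
      (Finset.le_sup (f := fun a : Fin (k + 2) → MvPolynomial (Fin (k + 2)) ℂ =>
        Finset.univ.sup fun j => (a j).totalDegree) ha)
  let H : Finset (Fin (k + 2) → MvPolynomial (Fin (k + 2)) ℂ) :=
    (G ×ˢ Finset.range (M + 1)).image fun x => hc x.2 x.1
  have hH : ∀ a ∈ H, ∃ q, ∀ j, (a j).IsHomogeneous q := by
    intro a ha
    obtain ⟨x, _, rfl⟩ := Finset.mem_image.1 ha
    exact ⟨x.2, fun j => homogeneousComponent_isHomogeneous _ _⟩
  have hspan : Submodule.span (MvPolynomial (Fin (k + 2)) ℂ) (H : Set _) = jacSyz f := by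
    apply le_antisymm
    · rw [Submodule.span_le]
      intro a ha
      obtain ⟨x, hx, rfl⟩ := Finset.mem_image.1 (Finset.mem_coe.1 ha)
      apply hc_mem hf
      rw [← hG]
      exact Submodule.subset_span (Finset.mem_product.1 hx).1
    · rw [← hG, Submodule.span_le]
      intro a ha
      have h1 : a = ∑ q ∈ Finset.range (M + 1), hc q a := by
        funext j
        rw [Finset.sum_apply]
        conv_lhs => rw [← sum_homogeneousComponent (a j)]
        apply Finset.sum_subset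
        · apply Finset.range_mono
          have := hM a ha j
          omega
        · intro q _ hq
          rw [Finset.mem_range] at hq
          exact homogeneousComponent_eq_zero _ _ (by omega)
      rw [SetLike.mem_coe, h1]
      apply Submodule.sum_mem
      intro q hq
      apply Submodule.subset_span
      exact Finset.mem_coe.2 (Finset.mem_image.2 ⟨(a, q), Finset.mem_product.2 ⟨ha, hq⟩, rfl⟩)
  choose! q hq using hH
  refine ⟨H.card, fun i => (H.equivFin.symm i : _), fun i => q (H.equivFin.symm i), ?_, ?_⟩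
  · intro i j
    exact hq _ (H.equivFin.symm i).2 j
  · rw [← hspan]
    congr 1
    ext a
    constructor
    · rintro ⟨i, rfl⟩
      exact (H.equivFin.symm i).2
    · intro ha
      exact ⟨H.equivFin ⟨a, ha⟩, by simp⟩

/-- The inductive construction. -/
theorem chain {f : MvPolynomial (Fin (k + 2)) ℂ}
    (hjac : ∀ p : MvPolynomial (Fin (k + 2)) ℂ, PL p → ∃ j, ¬ p ∣ pderiv j f) {m : ℕ}
    (ρ : Fin m → Fin (k + 2) → MvPolynomial (Fin (k + 2)) ℂ) (d : Fin m → ℕ)
    (hρ : ∀ i j, (ρ i j).IsHomogeneous (d i)) (hd : Monotone d)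
    (hspan : Submodule.span (MvPolynomial (Fin (k + 2)) ℂ) (Set.range ρ) = jacSyz f) (r : ℕ)
    (hr : r ≤ k) :
    ∃ (t : ℕ) (τ : Fin t → Fin (k + 2) → MvPolynomial (Fin (k + 2)) ℂ) (e : Fin t → ℕ)
      (v : Fin r → Fin (k + 2) → MvPolynomial (Fin (k + 2)) ℂ) (e' : Fin r → ℕ),
      t + r = m ∧ (∀ i j, (τ i j).IsHomogeneous (e i)) ∧ (∀ i j, (v i j).IsHomogeneous (e' i)) ∧
      Monotone e ∧
      Submodule.span (MvPolynomial (Fin (k + 2)) ℂ) (Set.range τ ∪ Set.range v) = jacSyz f ∧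
      ∀ p : MvPolynomial (Fin (k + 2)) ℂ, PL p → Prim.Prim p v := by
  induction r with
  | zero =>
    refine ⟨m, ρ, d, Fin.elim0, Fin.elim0, rfl, hρ, fun i => Fin.elim0 i, hd, ?_,
      fun p _ a _ i => Fin.elim0 i⟩
    rw [Set.range_eq_empty (Fin.elim0 : Fin 0 → _), Set.union_empty, hspan]
  | succ r ih =>
    obtain ⟨t, τ, e, v, e', htr, hτ, hv, he, hsp, hprim⟩ := ih (by omega)
    have ht : 1 ≤ t := by
      obtain ⟨i, _⟩ := exists_gen hjac hsp.ge PL_zero (show r ≤ k by omega) v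
        (fun i => NN_self PL_zero v i)
      have := i.pos
      omega
    obtain ⟨t, rfl⟩ : ∃ t', t = t' + 1 := ⟨t - 1, by omega⟩
    obtain ⟨c, hc, hN⟩ := step hjac hsp.ge hr e hprim
    set w := τ (Fin.last t) + ∑ i, c i • τ i.castSucc with hw
    refine ⟨t, fun i => τ i.castSucc, fun i => e i.castSucc, Fin.cons w v,
      Fin.cons (e (Fin.last t)) e', by omega, fun i => hτ _, ?_, ?_, ?_, ?_⟩
    · intro i j
      refine Fin.cases ?_ (fun i => ?_) i
      · simp only [Fin.cons_zero, hw, Pi.add_apply, Finset.sum_apply, Pi.smul_apply, smul_eq_mul]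
        apply (hτ _ j).add
        apply IsHomogeneous.sum
        intro i _
        have h1 := (hc i).mul (hτ i.castSucc j)
        have h2 : e i.castSucc ≤ e (Fin.last t) := he (Fin.le_last _)
        rwa [Nat.sub_add_cancel h2] at h1
      · simpa using hv i j
    · intro i j hij
      exact he (by simpa using hij)
    · rw [← hsp]
      apply le_antisymm
      · rw [Submodule.span_le]
        have hτm : ∀ i, τ i ∈ Submodule.span (MvPolynomial (Fin (k + 2)) ℂ)
            (Set.range τ ∪ Set.range v) := fun i => Submodule.subset_span (Or.inl ⟨i, rfl⟩)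
        rintro _ (⟨i, rfl⟩ | ⟨i, rfl⟩)
        · exact hτm _
        · refine Fin.cases ?_ (fun i => ?_) i
          · rw [Fin.cons_zero]
            exact Submodule.add_mem _ (hτm _) (Submodule.sum_mem _ fun i _ =>
              Submodule.smul_mem _ _ (hτm _))
          · rw [Fin.cons_succ]
            exact Submodule.subset_span (Or.inr ⟨i, rfl⟩)
      · rw [Submodule.span_le]
        have hτm : ∀ i : Fin t, τ i.castSucc ∈ Submodule.span (MvPolynomial (Fin (k + 2)) ℂ)
            ((Set.range fun i : Fin t => τ i.castSucc) ∪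
              Set.range (Fin.cons w v : Fin (r + 1) → _)) :=
          fun i => Submodule.subset_span (Or.inl ⟨i, rfl⟩)
        rintro _ (⟨i, rfl⟩ | ⟨i, rfl⟩)
        · refine Fin.lastCases ?_ (fun i => hτm i) i
          have h1 : τ (Fin.last t) = w - ∑ i, c i • τ i.castSucc := by
            rw [hw]
            abel
          rw [h1]
          apply Submodule.sub_mem
          · exact Submodule.subset_span (Or.inr ⟨0, by simp⟩)
          · exact Submodule.sum_mem _ fun i _ => Submodule.smul_mem _ _ (hτm i)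
        · exact Submodule.subset_span (Or.inr ⟨i.succ, by simp⟩)
    · intro p hp
      exact Prim_cons (hprim p hp) (hN p hp)

theorem syz_zero (v : Fin k → Fin (k + 2) → MvPolynomial (Fin (k + 2)) ℂ)
    (ρ : Fin (k + 2) → MvPolynomial (Fin (k + 2)) ℂ) (j : Fin (k + 2)) :
    syzMatrix v ρ (0 : Fin (k + 1 + 1)) j = X j := rfl

theorem syz_mid (v : Fin k → Fin (k + 2) → MvPolynomial (Fin (k + 2)) ℂ)
    (ρ : Fin (k + 2) → MvPolynomial (Fin (k + 2)) ℂ) (i : Fin k) (j : Fin (k + 2)) :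
    syzMatrix v ρ (Fin.succ (Fin.castSucc i)) j = v i j := by
  change (Fin.cons (fun j => X j) (Fin.snoc v ρ : Fin (k + 1) → _) :
      Fin (k + 1 + 1) → Fin (k + 2) → MvPolynomial (Fin (k + 2)) ℂ)
      (Fin.succ (Fin.castSucc i)) j = _
  rw [Fin.cons_succ, Fin.snoc_castSucc]

theorem syz_last (v : Fin k → Fin (k + 2) → MvPolynomial (Fin (k + 2)) ℂ)
    (ρ : Fin (k + 2) → MvPolynomial (Fin (k + 2)) ℂ) (j : Fin (k + 2)) :
    syzMatrix v ρ (Fin.succ (Fin.last k)) j = ρ j := by
  change (Fin.cons (fun j => X j) (Fin.snoc v ρ : Fin (k + 1) → _) :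
      Fin (k + 1 + 1) → Fin (k + 2) → MvPolynomial (Fin (k + 2)) ℂ)
      (Fin.succ (Fin.last k)) j = _
  rw [Fin.cons_succ, Fin.snoc_last]

/-- `f` divides the determinants. -/
theorem dvd_det {f : MvPolynomial (Fin (k + 2)) ℂ} {d : ℕ} (hf : f.IsHomogeneous d)
    (hf0 : f ≠ 0) (hjac : ∀ p : MvPolynomial (Fin (k + 2)) ℂ, PL p → ∃ j, ¬ p ∣ pderiv j f)
    (v : Fin k → Fin (k + 2) → MvPolynomial (Fin (k + 2)) ℂ) (hv : ∀ i, v i ∈ jacSyz f)
    (ρ : Fin (k + 2) → MvPolynomial (Fin (k + 2)) ℂ) (hρ : ρ ∈ jacSyz f) :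
    f ∣ (syzMatrix v ρ).det := by
  have key : ∀ j, f ∣ pderiv j f * (syzMatrix v ρ).det := by
    intro j
    have h1 := Matrix.det_updateCol_sum (syzMatrix v ρ) j (fun i => pderiv i f)
    rw [smul_eq_mul] at h1
    rw [← h1, Matrix.det_apply]
    apply Finset.dvd_sum
    intro σ _
    apply dvd_smul_of_dvd
    apply dvd_trans _ (Finset.dvd_prod_of_mem _ (Finset.mem_univ j))
    rw [Matrix.updateCol_self]
    have h2 : ∀ i : Fin (k + 1 + 1), f ∣ ∑ l, pderiv l f * syzMatrix v ρ i l := by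
      intro i
      refine Fin.cases ?_ (fun i => ?_) i
      · have h3 : ∑ l, pderiv l f * syzMatrix v ρ 0 l = d • f := by
          rw [← hf.sum_X_mul_pderiv]
          apply Finset.sum_congr rfl
          intro l _
          rw [mul_comm]
          rfl
        rw [h3, nsmul_eq_mul]
        exact dvd_mul_left _ _
      · refine Fin.lastCases ?_ (fun i => ?_) i
        · have h3 : ∑ l, pderiv l f * syzMatrix v ρ (Fin.succ (Fin.last k)) l = 0 := by
            rw [← mem_jacSyz.1 hρ]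
            apply Finset.sum_congr rfl
            intro l _
            rw [mul_comm, syz_last]
          rw [h3]
          exact dvd_zero _
        · have h3 : ∑ l, pderiv l f * syzMatrix v ρ (Fin.succ (Fin.castSucc i)) l = 0 := by
            rw [← mem_jacSyz.1 (hv i)]
            apply Finset.sum_congr rfl
            intro l _
            rw [mul_comm, syz_mid]
          rw [h3]
          exact dvd_zero _
    have h4 := h2 (σ j)
    simpa using h4
  -- cancel the partial derivatives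
  have gen : ∀ (g : MvPolynomial (Fin (k + 2)) ℂ), g ≠ 0 → ∀ c : MvPolynomial (Fin (k + 2)) ℂ,
      (∀ j, g ∣ pderiv j f * c) → g ∣ c := by
    intro g
    induction g using UniqueFactorizationMonoid.induction_on_prime with
    | h₁ => intro h; exact absurd rfl h
    | h₂ x hx => intro _ c _; exact hx.dvd
    | h₃ x p hx hp ih =>
      intro _ c hc
      obtain ⟨j, hj⟩ := hjac p (PL_of_prime hp)
      have h1 : p ∣ pderiv j f * c := (dvd_mul_right p x).trans (hc j)
      obtain ⟨c', rfl⟩ := (hp.dvd_or_dvd h1).resolve_left hj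
      apply mul_dvd_mul_left
      apply ih hx
      intro j
      have h2 := hc j
      rw [mul_left_comm] at h2
      exact (mul_dvd_mul_iff_left hp.ne_zero).1 h2
  exact gen f hf0 _ key

/-- Descent on the coefficient of `ρ`. -/
theorem desc (v : Fin k → Fin (k + 2) → MvPolynomial (Fin (k + 2)) ℂ)
    (hprim : ∀ p : MvPolynomial (Fin (k + 2)) ℂ, PL p → Prim.Prim p v)
    (ρ : Fin (k + 2) → MvPolynomial (Fin (k + 2)) ℂ) (c : MvPolynomial (Fin (k + 2)) ℂ) :
    c ≠ 0 → ∀ a : Fin k → MvPolynomial (Fin (k + 2)) ℂ, (∀ j, c * ρ j = ∑ i, a i * v i j) →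
    ρ ∈ Submodule.span (MvPolynomial (Fin (k + 2)) ℂ) (Set.range v) := by
  induction c using UniqueFactorizationMonoid.induction_on_prime with
  | h₁ => intro h; exact absurd rfl h
  | h₂ x hx =>
    intro _ a ha
    obtain ⟨u, rfl⟩ := hx
    rw [Submodule.mem_span_range_iff_exists_fun]
    refine ⟨fun i => ↑u⁻¹ * a i, ?_⟩
    funext j
    simp only [Finset.sum_apply, Pi.smul_apply, smul_eq_mul, mul_assoc, ← Finset.mul_sum]
    rw [← ha j, ← mul_assoc, Units.inv_mul, one_mul]
  | h₃ x p hx hp ih =>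
    intro _ a ha
    have h1 := hprim p (PL_of_prime hp) a (fun j => by
      rw [← ha j, mul_assoc]
      exact dvd_mul_right _ _)
    choose b hb using h1
    apply ih hx b
    intro j
    apply mul_left_cancel₀ hp.ne_zero
    rw [← mul_assoc, ha j, Finset.mul_sum]
    apply Finset.sum_congr rfl
    intro i _
    rw [hb i]
    ring

theorem indep_of_prim (v : Fin k → Fin (k + 2) → MvPolynomial (Fin (k + 2)) ℂ)
    (hprim : ∀ p : MvPolynomial (Fin (k + 2)) ℂ, PL p → Prim.Prim p v) :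
    LinearIndependent (MvPolynomial (Fin (k + 2)) ℂ) v := by
  rw [Fintype.linearIndependent_iff]
  intro a ha i
  have h1 := hprim 0 PL_zero a (fun j => by
    rw [zero_dvd_iff]
    have := congrFun ha j
    simpa [Finset.sum_apply] using this) i
  exact zero_dvd_iff.1 h1

/-- The first coefficient of a relation among the rows vanishes. -/
theorem first_zero {f : MvPolynomial (Fin (k + 2)) ℂ} {d : ℕ} (hd : 1 ≤ d)
    (hf : f.IsHomogeneous d) (hf0 : f ≠ 0)
    (v : Fin k → Fin (k + 2) → MvPolynomial (Fin (k + 2)) ℂ) (hv : ∀ i, v i ∈ jacSyz f)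
    (ρ : Fin (k + 2) → MvPolynomial (Fin (k + 2)) ℂ) (hρ : ρ ∈ jacSyz f)
    (z0 zl : MvPolynomial (Fin (k + 2)) ℂ) (a : Fin k → MvPolynomial (Fin (k + 2)) ℂ)
    (hz : ∀ j, z0 * X j + (∑ i : Fin k, a i * v i j + zl * ρ j) = 0) : z0 = 0 := by
  have h1 : ∑ j, (z0 * X j + (∑ i : Fin k, a i * v i j + zl * ρ j)) * pderiv j f = 0 := by
    apply Finset.sum_eq_zero
    intro j _
    rw [hz j, zero_mul]
  have h2 : ∑ j, (z0 * X j + (∑ i : Fin k, a i * v i j + zl * ρ j)) * pderiv j f =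
      z0 * (d • f) := by
    simp only [add_mul, Finset.sum_add_distrib, Finset.sum_mul]
    have e1 : ∑ j, z0 * X j * pderiv j f = z0 * (d • f) := by
      rw [← hf.sum_X_mul_pderiv, Finset.mul_sum]
      exact Finset.sum_congr rfl fun j _ => by ring
    have e2 : ∑ j, ∑ i : Fin k, a i * v i j * pderiv j f = 0 := by
      rw [Finset.sum_comm]
      apply Finset.sum_eq_zero
      intro i _
      have := mem_jacSyz.1 (hv i)
      simp only [mul_assoc, ← Finset.mul_sum, this, mul_zero]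
    have e3 : ∑ j, zl * ρ j * pderiv j f = 0 := by
      have := mem_jacSyz.1 hρ
      simp only [mul_assoc, ← Finset.mul_sum, this, mul_zero]
    rw [e1, e2, e3]
    ring
  rw [h2, nsmul_eq_mul] at h1
  have hd0 : (d : MvPolynomial (Fin (k + 2)) ℂ) ≠ 0 := by
    exact_mod_cast (by omega : d ≠ 0)
  exact (mul_eq_zero.1 h1).resolve_right (mul_ne_zero hd0 hf0)

theorem mem_of_det {f : MvPolynomial (Fin (k + 2)) ℂ} {d : ℕ} (hd : 1 ≤ d)
    (hf : f.IsHomogeneous d) (hf0 : f ≠ 0)
    (v : Fin k → Fin (k + 2) → MvPolynomial (Fin (k + 2)) ℂ) (hv : ∀ i, v i ∈ jacSyz f)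
    (hprim : ∀ p : MvPolynomial (Fin (k + 2)) ℂ, PL p → Prim.Prim p v)
    (ρ : Fin (k + 2) → MvPolynomial (Fin (k + 2)) ℂ) (hρ : ρ ∈ jacSyz f)
    (hw : (syzMatrix v ρ).det = 0) :
    ρ ∈ Submodule.span (MvPolynomial (Fin (k + 2)) ℂ) (Set.range v) := by
  have hli := indep_of_prim v hprim
  obtain ⟨z, hz0, hz⟩ := Matrix.exists_vecMul_eq_zero_iff.2 hw
  have hz' : ∀ j, z 0 * X j + (∑ i : Fin k, z (Fin.succ (Fin.castSucc i)) * v i j +
      z (Fin.succ (Fin.last k)) * ρ j) = 0 := by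
    intro j
    have h1 := congrFun hz j
    simp only [Matrix.vecMul, dotProduct, Pi.zero_apply] at h1
    rw [Fin.sum_univ_succ, Fin.sum_univ_castSucc] at h1
    simp only [syz_mid, syz_last] at h1
    exact h1
  have hz00 : z 0 = 0 := first_zero hd hf hf0 v hv ρ hρ _ _ _ hz'
  have hzl : z (Fin.succ (Fin.last k)) ≠ 0 := by
    intro h
    apply hz0
    have h1 : ∑ i : Fin k, z (Fin.succ (Fin.castSucc i)) • v i = 0 := by
      funext j
      have := hz' j
      rw [hz00, h, zero_mul, zero_mul, zero_add, add_zero] at this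
      simp only [Finset.sum_apply, Pi.smul_apply, smul_eq_mul, Pi.zero_apply]
      exact this
    have h2 := Fintype.linearIndependent_iff.1 hli _ h1
    funext i
    refine Fin.cases hz00 (fun i => ?_) i
    exact Fin.lastCases h (fun i => h2 i) i
  apply desc v hprim ρ _ hzl (fun i => -z (Fin.succ (Fin.castSucc i)))
  intro j
  have := hz' j
  rw [hz00, zero_mul, zero_add] at this
  simp only [neg_mul, Finset.sum_neg_distrib]
  linear_combination this

theorem det_of_mem (v : Fin k → Fin (k + 2) → MvPolynomial (Fin (k + 2)) ℂ)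
    (ρ : Fin (k + 2) → MvPolynomial (Fin (k + 2)) ℂ)
    (hmem : ρ ∈ Submodule.span (MvPolynomial (Fin (k + 2)) ℂ) (Set.range v)) :
    (syzMatrix v ρ).det = 0 := by
  rw [Submodule.mem_span_range_iff_exists_fun] at hmem
  obtain ⟨a, ha⟩ := hmem
  apply Matrix.exists_vecMul_eq_zero_iff.1
  refine ⟨(Fin.cons 0 (Fin.snoc (α := fun _ => MvPolynomial (Fin (k + 2)) ℂ) a (-1)) :
    Fin (k + 1 + 1) → MvPolynomial (Fin (k + 2)) ℂ), ?_, ?_⟩
  · intro h
    have h1 := congrFun h (Fin.succ (Fin.last k))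
    rw [Fin.cons_succ, Fin.snoc_last, Pi.zero_apply] at h1
    simp at h1
  · funext j
    simp only [Matrix.vecMul, dotProduct, Pi.zero_apply]
    rw [Fin.sum_univ_succ, Fin.sum_univ_castSucc]
    simp only [Fin.cons_zero, Fin.cons_succ, Fin.snoc_castSucc, Fin.snoc_last, syz_mid, syz_last,
      zero_mul, zero_add]
    rw [← ha]
    simp [Finset.sum_apply]

theorem tame_of_prim {f : MvPolynomial (Fin (k + 2)) ℂ} {d : ℕ} (hd : 1 ≤ d)
    (hf : f.IsHomogeneous d) (hf0 : f ≠ 0)
    (hjac : ∀ p : MvPolynomial (Fin (k + 2)) ℂ, PL p → ∃ j, ¬ p ∣ pderiv j f)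
    (v : Fin k → Fin (k + 2) → MvPolynomial (Fin (k + 2)) ℂ) (hv : ∀ i, v i ∈ jacSyz f)
    (hprim : ∀ p : MvPolynomial (Fin (k + 2)) ℂ, PL p → Prim.Prim p v) : IsTame f v := by
  refine ⟨indep_of_prim v hprim, fun ρ hρ => ?_⟩
  obtain ⟨w, hw⟩ := dvd_det hf hf0 hjac v hv ρ hρ
  refine ⟨w, by rw [hw, mul_comm], ?_, ?_⟩
  · rintro rfl
    rw [mul_zero] at hw
    exact mem_of_det hd hf hf0 v hv hprim ρ hρ hw
  · intro hmem
    rw [det_of_mem v ρ hmem] at hw
    exact (mul_eq_zero.1 hw.symm).resolve_left hf0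

/-- Every reduced hypersurface `f = 0` in `ℙ^n`, `n = k + 1`, is tame with respect to some `n - 1`
elements of some minimal set of generators of `D_0(f)`. -/
theorem result (k d : ℕ) (hd : 1 ≤ d) (f : MvPolynomial (Fin (k + 2)) ℂ)
    (hf : f.IsHomogeneous d) (hred : Squarefree f) :
    ∃ (m : ℕ) (ρ : Fin m → Fin (k + 2) → MvPolynomial (Fin (k + 2)) ℂ) (e : Fin m → ℕ),
      IsMinimalGenerators f ρ e ∧
      ∃ s : Fin k → Fin m, Function.Injective s ∧ IsTame f fun i => ρ (s i) := by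
  classical
  have hf0 : f ≠ 0 := hred.ne_zero
  have hjac : ∀ p : MvPolynomial (Fin (k + 2)) ℂ, PL p → ∃ j, ¬ p ∣ pderiv j f :=
    fun p hp => exists_not_dvd hd hf hred hp
  have hex := exists_gens hf
  obtain ⟨m, ⟨ρ0, e0, hρ0, hspan0⟩, hmin⟩ : ∃ m,
      (∃ (ρ : Fin m → Fin (k + 2) → MvPolynomial (Fin (k + 2)) ℂ) (e : Fin m → ℕ),
        (∀ i j, (ρ i j).IsHomogeneous (e i)) ∧
        Submodule.span (MvPolynomial (Fin (k + 2)) ℂ) (Set.range ρ) = jacSyz f) ∧
      ∀ m' < m, ∀ (ρ' : Fin m' → Fin (k + 2) → MvPolynomial (Fin (k + 2)) ℂ)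
        (e' : Fin m' → ℕ), (∀ i j, (ρ' i j).IsHomogeneous (e' i)) →
        Submodule.span (MvPolynomial (Fin (k + 2)) ℂ) (Set.range ρ') ≠ jacSyz f :=
    ⟨Nat.find hex, Nat.find_spec hex,
      fun m' hm' ρ' e' h1 h2 => Nat.find_min hex hm' ⟨ρ', e', h1, h2⟩⟩
  -- sort by degree
  let π := Tuple.sort e0
  have hmono : Monotone (e0 ∘ π) := Tuple.monotone_sort e0
  have hspan : Submodule.span (MvPolynomial (Fin (k + 2)) ℂ) (Set.range (ρ0 ∘ π)) = jacSyz f := by
    rw [Set.range_comp, π.surjective.range_eq, Set.image_univ, hspan0]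
  obtain ⟨t, τ, e, v, e', htr, hτ, hv, _, hsp, hprim⟩ := chain hjac (ρ0 ∘ π) (e0 ∘ π)
    (fun i j => hρ0 _ j) hmono hspan k le_rfl
  have hvm : ∀ i, v i ∈ jacSyz f := by
    intro i
    rw [← hsp]
    exact Submodule.subset_span (Or.inr ⟨i, rfl⟩)
  refine ⟨t + k, Fin.append τ v, Fin.append e e', ⟨?_, ?_, ?_⟩, Fin.natAdd t, ?_, ?_⟩
  · intro i j
    refine Fin.addCases (fun i => ?_) (fun i => ?_) i
    · simp only [Fin.append_left]
      exact hτ i j
    · simp only [Fin.append_right]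
      exact hv i j
  · rw [← hsp]
    congr 1
    ext x
    constructor
    · rintro ⟨i, rfl⟩
      refine Fin.addCases (fun i => ?_) (fun i => ?_) i
      · simp only [Fin.append_left]
        exact Or.inl ⟨i, rfl⟩
      · simp only [Fin.append_right]
        exact Or.inr ⟨i, rfl⟩
    · rintro (⟨i, rfl⟩ | ⟨i, rfl⟩)
      · exact ⟨Fin.castAdd k i, Fin.append_left _ _ _⟩
      · exact ⟨Fin.natAdd t i, Fin.append_right _ _ _⟩
  · rw [htr]
    exact hmin
  · intro i j hij
    simpa using hij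
  · simp only [Fin.append_right]
    exact tame_of_prim hd hf hf0 hjac v hvm hprim

end Pool.Agent.Results.MP_0a8f3f_ag.AlwaysTame
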